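import Pool.Agent.R760.SP1

/-! The volume of a neighbourhood of a set of points of a cube. -/

open MeasureTheory Metric Filter Set
open scoped Topology

namespace Pool.Agent.helper275_codes
open Pool.Agent.H818R2 Pool.Agent.R760.SP

/-- half of a Gaussian function -/
noncomputable def hg (μ t : ℝ) : ℝ := indicator (Ioi (0 : ℝ)) (fun t => Real.exp (-μ * t ^ 2)) t

/-- the weight `exp (-μ d(t)^2)`, `d(t)` the distance of `t` and `[0, ℓ]` -/
noncomputable def wt (μ ℓ t : ℝ) : ℝ :=
  hg μ (-t) + indicator (Icc (0 : ℝ) ℓ) (fun _ => (1 : ℝ)) t + hg μ (t - ℓ)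

lemma hg_nonneg (μ t : ℝ) : 0 ≤ hg μ t := by
  unfold hg
  exact indicator_nonneg (fun _ _ => (Real.exp_pos _).le) _

lemma hg_integrable {μ : ℝ} (hμ : 0 < μ) : Integrable (hg μ) volume := by
  unfold hg
  exact (integrable_exp_neg_mul_sq hμ).indicator measurableSet_Ioi

lemma hg_integral (μ : ℝ) : ∫ t, hg μ t = √(Real.pi / μ) / 2 := by
  unfold hg
  rw [integral_indicator measurableSet_Ioi]
  exact integral_gaussian_Ioi μ

lemma wt_nonneg (μ ℓ t : ℝ) : 0 ≤ wt μ ℓ t := by
  unfold wt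
  have h1 := hg_nonneg μ (-t)
  have h2 := hg_nonneg μ (t - ℓ)
  have h3 : 0 ≤ indicator (Icc (0 : ℝ) ℓ) (fun _ => (1 : ℝ)) t :=
    indicator_nonneg (fun _ _ => zero_le_one) _
  linarith

lemma one_integrable (ℓ : ℝ) : Integrable (indicator (Icc (0 : ℝ) ℓ) (fun _ => (1 : ℝ))) volume := by
  apply IntegrableOn.integrable_indicator _ measurableSet_Icc
  exact integrableOn_const (by rw [Real.volume_Icc]; exact ENNReal.ofReal_ne_top)

lemma wt_integrable {μ : ℝ} (hμ : 0 < μ) (ℓ : ℝ) : Integrable (wt μ ℓ) volume := by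
  unfold wt
  exact ((hg_integrable hμ).comp_neg.add (one_integrable ℓ)).add ((hg_integrable hμ).comp_sub_right ℓ)

lemma wt_integral {μ : ℝ} (hμ : 0 < μ) {ℓ : ℝ} (hℓ : 0 ≤ ℓ) :
    ∫ t, wt μ ℓ t = ℓ + √(Real.pi / μ) := by
  unfold wt
  have i1 := (hg_integrable hμ).comp_neg
  have i2 := one_integrable ℓ
  have i3 := (hg_integrable hμ).comp_sub_right ℓ
  have e1 : ∫ t, hg μ (-t) + indicator (Icc (0 : ℝ) ℓ) (fun _ => (1 : ℝ)) t + hg μ (t - ℓ) =
      (∫ t, (hg μ (-t) + indicator (Icc (0 : ℝ) ℓ) (fun _ => (1 : ℝ)) t)) + ∫ t, hg μ (t - ℓ) :=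
    integral_add (i1.add i2) i3
  have e2 : ∫ t, (hg μ (-t) + indicator (Icc (0 : ℝ) ℓ) (fun _ => (1 : ℝ)) t) =
      (∫ t, hg μ (-t)) + ∫ t, indicator (Icc (0 : ℝ) ℓ) (fun _ => (1 : ℝ)) t := integral_add i1 i2
  rw [e1, e2, integral_neg_eq_self (hg μ) volume, integral_sub_right_eq_self (hg μ) ℓ, hg_integral,
    integral_indicator_const _ measurableSet_Icc, measureReal_def, Real.volume_Icc,
    ENNReal.toReal_ofReal (by linarith)]
  simp
  ring

lemma le_wt {μ : ℝ} (hμ : 0 < μ) {ℓ x : ℝ} (hx0 : 0 ≤ x) (hx1 : x ≤ ℓ) (t : ℝ) :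
    Real.exp (-μ * (t - x) ^ 2) ≤ wt μ ℓ t := by
  unfold wt
  have h1 := hg_nonneg μ (-t)
  have h2 := hg_nonneg μ (t - ℓ)
  have h3 : 0 ≤ indicator (Icc (0 : ℝ) ℓ) (fun _ => (1 : ℝ)) t :=
    indicator_nonneg (fun _ _ => zero_le_one) _
  rcases lt_or_ge t 0 with ht | ht
  · have e : hg μ (-t) = Real.exp (-μ * (-t) ^ 2) := by
      unfold hg
      rw [indicator_of_mem (by simpa using ht)]
    have : Real.exp (-μ * (t - x) ^ 2) ≤ Real.exp (-μ * (-t) ^ 2) := by
      apply Real.exp_le_exp.2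
      nlinarith [mul_nonneg hμ.le (mul_nonneg hx0 (neg_nonneg.2 ht.le)),
        mul_nonneg hμ.le (mul_nonneg hx0 hx0)]
    linarith
  · rcases le_or_gt t ℓ with ht2 | ht2
    · have e : indicator (Icc (0 : ℝ) ℓ) (fun _ => (1 : ℝ)) t = 1 :=
        indicator_of_mem (show t ∈ Icc (0 : ℝ) ℓ from ⟨ht, ht2⟩) _
      have : Real.exp (-μ * (t - x) ^ 2) ≤ 1 := by
        apply Real.exp_le_one_iff.2
        nlinarith [mul_nonneg hμ.le (sq_nonneg (t - x))]
      linarith
    · have e : hg μ (t - ℓ) = Real.exp (-μ * (t - ℓ) ^ 2) := by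
        unfold hg
        rw [indicator_of_mem (by simpa using ht2)]
      have : Real.exp (-μ * (t - x) ^ 2) ≤ Real.exp (-μ * (t - ℓ) ^ 2) := by
        apply Real.exp_le_exp.2
        have h4 : (t - ℓ) ^ 2 ≤ (t - x) ^ 2 := by
          apply pow_le_pow_left₀ (by linarith)
          linarith
        nlinarith [mul_le_mul_of_nonneg_left h4 hμ.le]
      linarith

/-- the volume of the `2`-neighbourhood of a set of points of the cube `[0, ℓ]^n` -/
lemma nbhd_cube {n : ℕ} {X : Finset (EuclideanSpace ℝ (Fin n))} {ℓ : ℝ} (hℓ : 0 ≤ ℓ)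
    (hX : ∀ x ∈ X, ∀ i, 0 ≤ x i ∧ x i ≤ ℓ) {μ : ℝ} (hμ : 0 < μ) :
    volume.real (nbhd X) ≤ Real.exp (4 * μ) * (ℓ + √(Real.pi / μ)) ^ n := by
  have hI : Integrable (fun z : EuclideanSpace ℝ (Fin n) => ∏ i, wt μ ℓ (z i)) volume := by
    have h := Integrable.fintype_prod (ι := Fin n) (f := fun _ => wt μ ℓ) (μ := fun _ => volume)
      (fun _ => wt_integrable hμ ℓ)
    exact (PiLp.volume_preserving_ofLp (Fin n)).integrable_comp_of_integrable h
  have hint : ∫ z : EuclideanSpace ℝ (Fin n), ∏ i, wt μ ℓ (z i) = (ℓ + √(Real.pi / μ)) ^ n := by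
    have h := (EuclideanSpace.volume_preserving_symm_measurableEquiv_toLp (Fin n)).integral_comp'
      (g := fun z : Fin n → ℝ => ∏ i, wt μ ℓ (z i))
    have h2 : ∫ z : Fin n → ℝ, ∏ i, wt μ ℓ (z i) = (∫ x, wt μ ℓ x) ^ Fintype.card (Fin n) :=
      integral_fintype_prod_volume_eq_pow (wt μ ℓ)
    rw [Fintype.card_fin, wt_integral hμ hℓ] at h2
    rw [← h2, ← h]
    rfl
  have hm := nbhd_meas X
  calc volume.real (nbhd X) = ∫ z, indicator (nbhd X) (fun _ => (1 : ℝ)) z := by
        rw [integral_indicator_const _ hm]; simp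
    _ ≤ ∫ z : EuclideanSpace ℝ (Fin n), Real.exp (4 * μ) * ∏ i, wt μ ℓ (z i) := by
        apply integral_mono
        · apply IntegrableOn.integrable_indicator _ hm
          exact integrableOn_const (nbhd_lt_top X).ne
        · exact hI.const_mul _
        · intro z
          by_cases hz : z ∈ nbhd X
          · simp only [indicator_of_mem hz]
            obtain ⟨x, hx, hxz⟩ := mem_nbhd.1 hz
            have h1 : ∑ i, (z i - x i) ^ 2 ≤ 4 := by
              rw [EuclideanSpace.dist_eq] at hxz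
              have h2 : ∑ i, dist (z i) (x i) ^ 2 ≤ 4 := by
                have h3 := Real.sqrt_lt' (show (0 : ℝ) < 2 by norm_num) |>.1 hxz
                linarith
              simpa [Real.dist_eq, sq_abs] using h2
            have h2 : Real.exp (-(4 * μ)) ≤ ∏ i, wt μ ℓ (z i) := by
              calc Real.exp (-(4 * μ)) ≤ Real.exp (∑ i, -μ * (z i - x i) ^ 2) := by
                    apply Real.exp_le_exp.2
                    rw [← Finset.mul_sum]
                    nlinarith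
                _ = ∏ i, Real.exp (-μ * (z i - x i) ^ 2) := Real.exp_sum _ _
                _ ≤ ∏ i, wt μ ℓ (z i) := by
                    apply Finset.prod_le_prod (fun _ _ => (Real.exp_pos _).le)
                    intro i _
                    exact le_wt hμ (hX x hx i).1 (hX x hx i).2 _
            calc (1 : ℝ) = Real.exp (4 * μ) * Real.exp (-(4 * μ)) := by
                  rw [← Real.exp_add]; simp
              _ ≤ _ := mul_le_mul_of_nonneg_left h2 (Real.exp_pos _).le
          · simp only [indicator_of_notMem hz]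
            exact mul_nonneg (Real.exp_pos _).le (Finset.prod_nonneg fun i _ => wt_nonneg _ _ _)
    _ = Real.exp (4 * μ) * (ℓ + √(Real.pi / μ)) ^ n := by
        rw [integral_const_mul, hint]

end Pool.Agent.helper275_codes
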