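import Pool.Agent.helper275_codes.Cube

/-! Codes over the alphabet `{0, …, q-1}` with the Euclidean distance, and sphere packings. -/

open MeasureTheory Metric Filter Set
open scoped Topology

namespace Pool.Agent.helper275_codes
open Pool.Agent.H818R2 Pool.Agent.R760.SP

/-- `C` is a code of length `n` over the alphabet `{0, …, q-1}` whose words have squared Euclidean
distances at least `D n`. -/
def IsCode (q n : ℕ) (D : ℝ) (C : Finset (Fin n → Fin q)) : Prop :=
  ∀ x ∈ C, ∀ y ∈ C, x ≠ y → D * n ≤ ∑ i, (((x i : ℕ) : ℝ) - ((y i : ℕ) : ℝ)) ^ 2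

/-- the largest size of such a code -/
noncomputable def maxCode (q n : ℕ) (D : ℝ) : ℕ :=
  sSup {k | ∃ C : Finset (Fin n → Fin q), IsCode q n D C ∧ C.card = k}

/-- the volume of a ball of radius `r` in `ℝ^n` -/
noncomputable def bv (n : ℕ) (r : ℝ) : ℝ := volume.real (ball (0 : EuclideanSpace ℝ (Fin n)) r)

lemma bv_eq (n : ℕ) {r : ℝ} (hr : 0 < r) : bv n r = r ^ n * vb (EuclideanSpace ℝ (Fin n)) := by
  unfold bv
  rw [vol_ball 0 hr, finrank_euclideanSpace_fin]

lemma maxCode_bdd (q n : ℕ) (D : ℝ) :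
    BddAbove {k | ∃ C : Finset (Fin n → Fin q), IsCode q n D C ∧ C.card = k} := by
  refine ⟨Fintype.card (Fin n → Fin q), ?_⟩
  rintro k ⟨C, -, rfl⟩
  exact Finset.card_le_univ C

lemma maxCode_mem (q n : ℕ) (D : ℝ) :
    ∃ C : Finset (Fin n → Fin q), IsCode q n D C ∧ C.card = maxCode q n D := by
  have : maxCode q n D ∈ {k | ∃ C : Finset (Fin n → Fin q), IsCode q n D C ∧ C.card = k} :=
    Nat.sSup_mem ⟨0, ∅, by intro x hx; simp at hx, by simp⟩ (maxCode_bdd q n D)
  exact this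

lemma le_maxCode {q n : ℕ} {D : ℝ} {C : Finset (Fin n → Fin q)} (hC : IsCode q n D C) :
    C.card ≤ maxCode q n D := le_csSup (maxCode_bdd q n D) ⟨C, hC, rfl⟩

/-- the error factor of the upper bound -/
noncomputable def err (τ : ℝ) : ℝ := Real.exp τ * (1 + √(Real.pi * τ))

lemma err_pos (τ : ℝ) : 0 < err τ := by
  unfold err
  have := Real.sqrt_nonneg (Real.pi * τ)
  positivity

lemma one_le_err {τ : ℝ} (hτ : 0 ≤ τ) : 1 ≤ err τ := by
  unfold err
  have h1 : 1 ≤ Real.exp τ := Real.one_le_exp hτ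
  have h2 := Real.sqrt_nonneg (Real.pi * τ)
  nlinarith

lemma err_mono {a b : ℝ} (hab : a ≤ b) : err a ≤ err b := by
  unfold err
  have h1 : Real.exp a ≤ Real.exp b := Real.exp_le_exp.2 hab
  have h2 : √(Real.pi * a) ≤ √(Real.pi * b) :=
    Real.sqrt_le_sqrt (mul_le_mul_of_nonneg_left hab Real.pi_pos.le)
  have h3 := Real.sqrt_nonneg (Real.pi * a)
  have h4 := Real.exp_pos a
  apply mul_le_mul h1 (by linarith) (by linarith) (Real.exp_pos b).le

/-- codes give packings -/
lemma code_le {q n : ℕ} (hq : 0 < q) (hn : 0 < n) {D : ℝ} (hD : 0 < D)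
    {C : Finset (Fin n → Fin q)} (hC : IsCode q n D C) :
    C.card * bv n (√(D * n) / 2) / q ^ n ≤ err (√D / q) ^ n * rho n := by
  classical
  have : Nonempty (Fin n) := ⟨⟨0, hn⟩⟩
  have : Nontrivial (EuclideanSpace ℝ (Fin n)) := by
    apply Module.nontrivial_of_finrank_pos (R := ℝ)
    rw [finrank_euclideanSpace_fin]; exact hn
  have hq' : (0 : ℝ) < q := by exact_mod_cast hq
  have hn' : (0 : ℝ) < n := by exact_mod_cast hn
  have hs : 0 < √(D * n) := Real.sqrt_pos.2 (by positivity)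
  have hsq : √(D * n) ^ 2 = D * n := Real.sq_sqrt (by positivity)
  set s := √(D * n) with hsdef
  have hDs : 0 < √D := Real.sqrt_pos.2 hD
  have hns : 0 < √(n : ℝ) := Real.sqrt_pos.2 hn'
  have hs2 : s = √D * √(n : ℝ) := by rw [hsdef, Real.sqrt_mul hD.le]
  set β : ℝ := 2 / s with hβ
  have hβ0 : 0 < β := by positivity
  set v := vb (EuclideanSpace ℝ (Fin n)) with hv
  have hv0 : 0 < v := vb_pos
  rcases C.eq_empty_or_nonempty with rfl | hne
  · simp only [Finset.card_empty, Nat.cast_zero, zero_mul, zero_div]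
    exact mul_nonneg (pow_nonneg (err_pos _).le _) (rho_nonneg n)
  set φ : (Fin n → Fin q) → EuclideanSpace ℝ (Fin n) :=
    fun x => WithLp.toLp 2 (fun i => β * ((x i : ℕ) : ℝ)) with hφ
  have hdist : ∀ x ∈ C, ∀ y ∈ C, x ≠ y → 2 ≤ dist (φ x) (φ y) := by
    intro x hx y hy hxy
    rw [EuclideanSpace.dist_eq]
    apply Real.le_sqrt_of_sq_le
    have h1 := hC x hx y hy hxy
    have h2 : ∑ i, dist (φ x i) (φ y i) ^ 2 =
        β ^ 2 * ∑ i, (((x i : ℕ) : ℝ) - ((y i : ℕ) : ℝ)) ^ 2 := by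
      rw [Finset.mul_sum]
      apply Finset.sum_congr rfl
      intro i _
      simp only [hφ, Real.dist_eq, sq_abs]
      ring
    have h3 : β ^ 2 * (D * n) = 4 := by
      rw [← hsq, hβ]; field_simp; norm_num
    have h4 := mul_le_mul_of_nonneg_left h1 (sq_nonneg β)
    rw [h2]
    linarith
  have hinj : Set.InjOn φ C := by
    intro x hx y hy hxy
    by_contra hne
    have := hdist x hx y hy hne
    rw [hxy, dist_self] at this
    linarith
  set X := C.image φ with hX
  have hXc : X.card = C.card := Finset.card_image_of_injOn hinj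
  have hXs : Sep 2 X := by
    intro x hx y hy hxy
    obtain ⟨x', hx', rfl⟩ := Finset.mem_image.1 hx
    obtain ⟨y', hy', rfl⟩ := Finset.mem_image.1 hy
    exact hdist x' hx' y' hy' (fun h => hxy (by rw [h]))
  have h1 := replaceU hXs (hne.image φ)
  set τ : ℝ := √D / q with hτ
  have hτ0 : 0 < τ := by positivity
  have h2 := nbhd_cube (X := X) (ℓ := β * q) (by positivity) (by
    intro x hx i
    obtain ⟨x', hx', rfl⟩ := Finset.mem_image.1 hx
    have h3 : ((x' i : ℕ) : ℝ) ≤ q := by exact_mod_cast (x' i).2.le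
    exact ⟨by simp only [hφ]; positivity, by
      simp only [hφ]
      exact mul_le_mul_of_nonneg_left h3 hβ0.le⟩) (μ := n * τ / 4) (by positivity)
  have h3 : √(Real.pi / (n * τ / 4)) = β * q * √(Real.pi * τ) := by
    rw [show Real.pi / (n * τ / 4) = (β * q) ^ 2 * (Real.pi * τ) by
      rw [hβ, hs2, hτ]
      have hD2 : √D ^ 2 = D := Real.sq_sqrt hD.le
      have hn2 : √(n : ℝ) ^ 2 = n := Real.sq_sqrt hn'.le
      field_simp
      rw [hn2]
      field_simp
      ring, Real.sqrt_mul (by positivity), Real.sqrt_sq (by positivity)]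
  rw [h3] at h2
  have h4 : Real.exp (4 * (n * τ / 4)) * (β * q + β * q * √(Real.pi * τ)) ^ n =
      (β * q) ^ n * err τ ^ n := by
    unfold err
    rw [show (4 : ℝ) * (n * τ / 4) = n * τ by ring, Real.exp_nat_mul,
      show β * q + β * q * √(Real.pi * τ) = β * q * (1 + √(Real.pi * τ)) by ring,
      mul_pow (β * q), mul_pow (Real.exp τ)]
    ring
  rw [h4] at h2
  have h5 : (C.card : ℝ) * v ≤ rho n * ((β * q) ^ n * err τ ^ n) := by
    rw [← hXc]
    exact h1.trans (mul_le_mul_of_nonneg_left h2 optDensity_nonneg)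
  rw [bv_eq n (by positivity), div_le_iff₀ (by positivity)]
  have h6 : (β * q) ^ n * (s / 2) ^ n = (q : ℝ) ^ n := by
    rw [← mul_pow, hβ]; congr 1; field_simp
  calc (C.card : ℝ) * ((s / 2) ^ n * v) = (C.card * v) * (s / 2) ^ n := by ring
    _ ≤ (rho n * ((β * q) ^ n * err τ ^ n)) * (s / 2) ^ n :=
        mul_le_mul_of_nonneg_right h5 (by positivity)
    _ = err τ ^ n * rho n * ((β * q) ^ n * (s / 2) ^ n) := by ring
    _ = _ := by rw [h6]

/-- the cube `[0, a)^n` -/
def cube (n : ℕ) (a : ℝ) : Set (EuclideanSpace ℝ (Fin n)) := {z | ∀ i, 0 ≤ z i ∧ z i < a}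

lemma cube_eq (n : ℕ) (a : ℝ) : cube n a =
    (MeasurableEquiv.toLp 2 (Fin n → ℝ)).symm ⁻¹' (Set.pi univ fun _ => Ico (0 : ℝ) a) := by
  ext z
  simp [cube, Set.mem_pi]

lemma cube_meas (n : ℕ) (a : ℝ) : MeasurableSet (cube n a) := by
  rw [cube_eq]
  exact (MeasurableEquiv.measurable _) (MeasurableSet.univ_pi fun _ => measurableSet_Ico)

lemma cube_vol (n : ℕ) {a : ℝ} (ha : 0 ≤ a) : volume.real (cube n a) = a ^ n := by
  rw [cube_eq, measureReal_def,
    (EuclideanSpace.volume_preserving_symm_measurableEquiv_toLp (Fin n)).measure_preimage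
      (MeasurableSet.univ_pi fun _ => measurableSet_Ico).nullMeasurableSet,
    volume_pi_pi]
  simp [ENNReal.toReal_pow, ENNReal.toReal_ofReal ha]

lemma cube_sub (n : ℕ) {a : ℝ} (ha : 0 ≤ a) : cube n a ⊆ closedBall 0 (a * √(n : ℝ)) := by
  intro z hz
  rw [mem_closedBall_zero_iff, EuclideanSpace.norm_eq]
  rw [show a * √(n : ℝ) = √(a ^ 2 * n) by
    rw [Real.sqrt_mul (sq_nonneg a), Real.sqrt_sq ha]]
  apply Real.sqrt_le_sqrt
  calc ∑ i, ‖z i‖ ^ 2 ≤ ∑ _i : Fin n, a ^ 2 := by
        apply Finset.sum_le_sum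
        intro i _
        rw [Real.norm_eq_abs, sq_abs]
        exact pow_le_pow_left₀ (hz i).1 (hz i).2.le 2
    _ = a ^ 2 * n := by simp [mul_comm]

/-- packings give codes -/
lemma le_code {q n : ℕ} (hq : 0 < q) (hn : 0 < n) {D : ℝ} (hD : 0 < D) :
    rho n ≤ (1 + 1 / √D) ^ n * (maxCode q n D * bv n (√(D * n) / 2) / q ^ n) := by
  classical
  have hq' : (0 : ℝ) < q := by exact_mod_cast hq
  have hn' : (0 : ℝ) < n := by exact_mod_cast hn
  have hs : 0 < √(D * n) := Real.sqrt_pos.2 (by positivity)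
  have hsq : √(D * n) ^ 2 = D * n := Real.sq_sqrt (by positivity)
  set s := √(D * n) with hsdef
  have hDs : 0 < √D := Real.sqrt_pos.2 hD
  have hns : 0 < √(n : ℝ) := Real.sqrt_pos.2 hn'
  have hs2 : s = √D * √(n : ℝ) := by rw [hsdef, Real.sqrt_mul hD.le]
  set t := √(n : ℝ) with ht
  set v := vb (EuclideanSpace ℝ (Fin n)) with hv
  have hv0 : 0 < v := vb_pos
  set γ : ℝ := 2 / (s + t) with hγ
  have hγ0 : 0 < γ := by positivity
  have hγq : 0 < γ * q := by positivity
  obtain ⟨P, hP, hPG, hPc⟩ := exists_large (cube_meas n (γ * q)) (a := γ * q * t) (by positivity)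
    (cube_sub n hγq.le) (by rw [cube_vol n hγq.le]; positivity)
  rw [cube_vol n hγq.le] at hPc
  have hlt : ∀ z ∈ P, ∀ i, ⌊z i / γ⌋₊ < q := by
    intro z hz i
    have h1 := hPG hz i
    rw [Nat.floor_lt (div_nonneg h1.1 hγ0.le), div_lt_iff₀ hγ0]
    linarith [h1.2]
  set φ : EuclideanSpace ℝ (Fin n) → (Fin n → Fin q) :=
    fun z i => if h : ⌊z i / γ⌋₊ < q then ⟨⌊z i / γ⌋₊, h⟩ else ⟨0, hq⟩ with hφ
  have hφv : ∀ z ∈ P, ∀ i, ((φ z i : ℕ) : ℝ) = (⌊z i / γ⌋₊ : ℝ) := by
    intro z hz i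
    simp only [hφ, dif_pos (hlt z hz i)]
  have hdist : ∀ z ∈ P, ∀ z' ∈ P, z ≠ z' →
      D * n ≤ ∑ i, (((φ z i : ℕ) : ℝ) - ((φ z' i : ℕ) : ℝ)) ^ 2 := by
    intro z hz z' hz' hzz
    set a : EuclideanSpace ℝ (Fin n) :=
      WithLp.toLp 2 (fun i => ((φ z i : ℕ) : ℝ) - ((φ z' i : ℕ) : ℝ)) with ha
    set b : EuclideanSpace ℝ (Fin n) := (1 / γ) • (z - z') - a with hb
    have h1 : s + t ≤ ‖(1 / γ) • (z - z')‖ := by
      rw [norm_smul, Real.norm_eq_abs, abs_of_pos (by positivity), ← dist_eq_norm]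
      have h2 := hP z hz z' hz' hzz
      calc s + t = 1 / γ * 2 := by rw [hγ]; field_simp
        _ ≤ _ := mul_le_mul_of_nonneg_left h2 (by positivity)
    have h2 : ‖b‖ ≤ t := by
      rw [EuclideanSpace.norm_eq, ht]
      apply Real.sqrt_le_sqrt
      calc ∑ i, ‖b i‖ ^ 2 ≤ ∑ _i : Fin n, (1 : ℝ) := by
            apply Finset.sum_le_sum
            intro i _
            have e : b i = (z i / γ - ⌊z i / γ⌋₊) - (z' i / γ - ⌊z' i / γ⌋₊) := by
              simp only [hb, ha, PiLp.sub_apply, PiLp.smul_apply, smul_eq_mul, hφv z hz i,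
                hφv z' hz' i]
              ring
            have g1 := hPG hz i
            have g2 := hPG hz' i
            have g3 := Nat.floor_le (div_nonneg g1.1 hγ0.le)
            have g4 := Nat.floor_le (div_nonneg g2.1 hγ0.le)
            have g5 := Nat.lt_floor_add_one (z i / γ)
            have g6 := Nat.lt_floor_add_one (z' i / γ)
            rw [Real.norm_eq_abs, sq_abs, e]
            nlinarith
        _ = n := by simp
    have h3 : s ≤ ‖a‖ := by
      have h4 : (1 / γ) • (z - z') = a + b := by rw [hb]; abel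
      rw [h4] at h1
      have := norm_add_le a b
      linarith
    have h4 : D * n ≤ ‖a‖ ^ 2 := by
      rw [← hsq]; exact pow_le_pow_left₀ hs.le h3 2
    rw [EuclideanSpace.norm_eq, Real.sq_sqrt (Finset.sum_nonneg fun _ _ => sq_nonneg _)] at h4
    simpa [ha, Real.norm_eq_abs, sq_abs] using h4
  have hinj : Set.InjOn φ P := by
    intro x hx y hy hxy
    by_contra hne
    have := hdist x hx y hy hne
    rw [hxy] at this
    simp only [sub_self, ne_eq, OfNat.ofNat_ne_zero, not_false_eq_true, zero_pow,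
      Finset.sum_const_zero] at this
    have : 0 < D * n := by positivity
    linarith
  have hcode : IsCode q n D (P.image φ) := by
    intro x hx y hy hxy
    obtain ⟨x', hx', rfl⟩ := Finset.mem_image.1 hx
    obtain ⟨y', hy', rfl⟩ := Finset.mem_image.1 hy
    exact hdist x' hx' y' hy' (fun h => hxy (by rw [h]))
  have hcard : (P.card : ℝ) ≤ maxCode q n D := by
    rw [← Finset.card_image_of_injOn hinj]
    exact_mod_cast le_maxCode hcode
  have h1 : rho n * (γ * q) ^ n ≤ maxCode q n D * v := by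
    refine le_trans ?_ (mul_le_mul_of_nonneg_right hcard hv0.le)
    exact hPc
  rw [bv_eq n (by positivity)]
  have h2 : (1 + 1 / √D) * (s / 2) = 1 / γ := by
    rw [hγ, hs2]; field_simp
  have h3 : (1 + 1 / √D) ^ n * (maxCode q n D * ((s / 2) ^ n * v) / q ^ n) =
      maxCode q n D * v / (γ * q) ^ n := by
    rw [show (1 + 1 / √D) ^ n * (maxCode q n D * ((s / 2) ^ n * v) / (q : ℝ) ^ n) =
      ((1 + 1 / √D) * (s / 2)) ^ n * (maxCode q n D * v) / q ^ n by rw [mul_pow]; ring, h2,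
      mul_pow, div_pow, one_pow]
    field_simp
  rw [h3, le_div_iff₀ (by positivity)]
  exact h1

end Pool.Agent.helper275_codes
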